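import Pool.Agent.Run7.h41.NF.Iface

set_option autoImplicit false

/-!
# Project NF, piece SH: shadows in the Cayley tree of a free group
-/

namespace Run7.h300.NF

open Run7.h41.NF

variable {n : ℕ}

theorem op_op (s : Lt n) : op (op s) = s := by
  rcases s with ⟨i, b⟩
  simp [op]

theorem op_ne (s : Lt n) : op s ≠ s := by
  rcases s with ⟨i, b⟩
  intro h
  have := congrArg Prod.snd h
  cases b <;> simp [op] at this

theorem el_toWord (s : Lt n) : (el s).toWord = [s] := by
  simp [el, FreeGroup.toWord_mk]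

theorem el_inv (s : Lt n) : (el s)⁻¹ = el (op s) := by
  simp [el, op, FreeGroup.inv_mk, FreeGroup.invRev]

theorem el_op_mul_el (s : Lt n) : el (op s) * el s = 1 := by
  rw [← el_inv]; simp

/-- Left multiplication by a letter. -/
theorem cons_toWord (s : Lt n) (w : FG n) :
    (w.toWord = op s :: (el s * w).toWord) ∨
      (w.toWord.head? ≠ some (op s) ∧ (el s * w).toWord = s :: w.toWord) := by
  have hw : w = FreeGroup.mk w.toWord := FreeGroup.mk_toWord.symm
  have h1 : (el s * w).toWord = FreeGroup.reduce (s :: w.toWord) := by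
    conv_lhs => rw [hw]
    rw [el, FreeGroup.mul_mk, FreeGroup.toWord_mk]
    rfl
  rw [h1, FreeGroup.reduce.cons, FreeGroup.reduce_toWord]
  cases hc : w.toWord with
  | nil => right; simp
  | cons hd tl =>
    by_cases h : s.1 = hd.1 ∧ s.2 = !hd.2
    · left
      simp only [h, and_self, if_true]
      have : hd = op s := by
        rcases hd with ⟨i, b⟩
        rcases s with ⟨j, c⟩
        simp only at h
        obtain ⟨h1, h2⟩ := h
        subst h1
        subst h2
        simp [op]
      rw [← this]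
    · right
      simp only [h, if_false, and_true]
      intro h2
      apply h
      simp only [List.head?_cons, Option.some.injEq] at h2
      subst h2
      simp [op]

/-- Right multiplication by a letter. -/
theorem snoc_toWord (t : Lt n) (w : FG n) :
    (w.toWord = (w * el t).toWord ++ [op t]) ∨ ((w * el t).toWord = w.toWord ++ [t]) := by
  have e1 : w * el t = (el (op t) * w⁻¹)⁻¹ := by
    rw [mul_inv_rev, inv_inv, ← el_inv, inv_inv]
  have e2 : (w * el t).toWord = FreeGroup.invRev (el (op t) * w⁻¹).toWord := by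
    rw [e1, FreeGroup.toWord_inv]
  have e3 : w.toWord = FreeGroup.invRev (w⁻¹).toWord := by
    rw [← FreeGroup.toWord_inv, inv_inv]
  rcases cons_toWord (op t) w⁻¹ with h | ⟨-, h⟩
  · left
    rw [e2, e3, h]
    simp [FreeGroup.invRev, op]
  · right
    rw [e2, h]
    conv_rhs => rw [e3]
    simp [FreeGroup.invRev, op]

theorem mem_Sh {v y : FG n} {s : Lt n} : y ∈ Sh v s ↔ (v⁻¹ * y).toWord.head? = some s := Iff.rfl

theorem shift (v y : FG n) (s : Lt n) : (v * el s)⁻¹ * y = el (op s) * (v⁻¹ * y) := by
  rw [mul_inv_rev, el_inv, mul_assoc]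

theorem sh_compl (v : FG n) (s : Lt n) : (Sh v s)ᶜ = Sh (v * el s) (op s) := by
  ext y
  rw [Set.mem_compl_iff, mem_Sh, mem_Sh, shift]
  set w := v⁻¹ * y with hw
  rcases cons_toWord (op s) w with h | ⟨h1, h2⟩
  · rw [op_op] at h
    have hr : FreeGroup.IsReduced w.toWord := FreeGroup.isReduced_toWord
    rw [h]
    constructor
    · intro h3
      exact absurd rfl h3
    · intro h3
      exfalso
      rw [h] at hr
      cases hc : (el (op s) * w).toWord with
      | nil => rw [hc] at h3; simp at h3
      | cons a l =>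
        rw [hc] at h3 hr
        simp only [List.head?_cons, Option.some.injEq] at h3
        subst h3
        rw [FreeGroup.isReduced_cons_cons] at hr
        have := hr.1
        simp [op] at this
  · rw [op_op] at h1
    rw [h2]
    simp only [List.head?_cons, iff_true]
    exact h1

theorem sh_ex (v y : FG n) (h : y ≠ v) : ∃ s, y ∈ Sh v s := by
  cases hc : (v⁻¹ * y).toWord with
  | nil =>
    exfalso
    have := FreeGroup.toWord_eq_nil_iff.1 hc
    apply h
    exact (inv_mul_eq_one.1 this).symm
  | cons a l =>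
    exact ⟨a, by rw [mem_Sh, hc]; rfl⟩

theorem sh_self (v : FG n) (s : Lt n) : v ∉ Sh v s := by
  rw [mem_Sh]; simp

theorem sh_uniq (v y : FG n) (s t : Lt n) (h1 : y ∈ Sh v s) (h2 : y ∈ Sh v t) : s = t := by
  rw [mem_Sh] at h1 h2
  rw [h1] at h2
  exact Option.some.inj h2

theorem sh_child (v : FG n) (s t : Lt n) (h : t ≠ op s) : Sh (v * el s) t ⊆ Sh v s := by
  intro y hy
  by_contra hc
  have : y ∈ (Sh v s)ᶜ := hc
  rw [sh_compl] at this
  exact h (sh_uniq _ _ _ _ hy this)

theorem sh_norm (v y : FG n) (s : Lt n) (h : y ∈ Sh v s) :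
    ((v * el s)⁻¹ * y).norm + 1 = (v⁻¹ * y).norm := by
  rw [shift]
  rw [mem_Sh] at h
  rcases cons_toWord (op s) (v⁻¹ * y) with h1 | ⟨h1, h2⟩
  · rw [FreeGroup.norm, FreeGroup.norm]
    conv_rhs => rw [h1]
    simp
  · rw [op_op] at h1
    exact absurd h h1

theorem sh_el (v : FG n) (s : Lt n) : v * el s ∈ Sh v s := by
  rw [mem_Sh]
  simp [el_toWord]

theorem sh_big (s : Lt n) (k : ℕ) : ∀ v : FG n, ∃ y ∈ Sh v s, (v⁻¹ * y).norm = k + 1 := by
  induction k with
  | zero =>
    intro v
    refine ⟨v * el s, sh_el v s, ?_⟩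
    simp [FreeGroup.norm, el_toWord]
  | succ k ih =>
    intro v
    obtain ⟨y, hy, hn⟩ := ih (v * el s)
    have hy2 : y ∈ Sh v s := sh_child v s s (fun h => op_ne s h.symm) hy
    exact ⟨y, hy2, by rw [← sh_norm v y s hy2, hn]⟩

/-- The piece SH. -/
theorem t_SH : S_SH := by
  intro n
  refine ⟨?_, sh_compl, sh_ex, sh_self, sh_uniq, ?_, sh_child, ?_, sh_norm, sh_el, ?_⟩
  · intro g v s
    ext y
    change (v⁻¹ * (g⁻¹ * y)).toWord.head? = some s ↔ ((g * v)⁻¹ * y).toWord.head? = some s
    rw [mul_inv_rev, mul_assoc]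
  · intro v z s t h1 h2
    rw [mem_Sh] at h1 h2
    rw [← mul_assoc] at h2
    rcases snoc_toWord t (v⁻¹ * z) with h | h
    · exfalso
      apply h1
      rw [h]
      cases hc : (v⁻¹ * z * el t).toWord with
      | nil => rw [hc] at h2; simp at h2
      | cons a l => rw [hc] at h2; simpa using h2
    · cases hc : (v⁻¹ * z).toWord with
      | nil =>
        have h3 := FreeGroup.toWord_eq_nil_iff.1 hc
        rw [h, hc] at h2
        simp only [List.nil_append, List.head?_cons, Option.some.injEq] at h2
        exact ⟨(inv_mul_eq_one.1 h3).symm, h2⟩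
      | cons a l =>
        exfalso
        apply h1
        rw [h, hc] at h2
        rw [hc]
        simpa using h2
  · intro v y s h1 h2
    obtain ⟨t, ht⟩ := sh_ex (v * el s) y h2
    refine ⟨t, ?_, ht⟩
    intro h3
    subst h3
    rw [← sh_compl] at ht
    exact ht h1
  · intro v s hf
    have hf2 : ((fun y : FG n => (v⁻¹ * y).norm) '' (Sh v s)).Finite := hf.image _
    have hsub : Set.range (fun k : ℕ => k + 1) ⊆ (fun y : FG n => (v⁻¹ * y).norm) '' (Sh v s) := by
      rintro _ ⟨k, rfl⟩
      obtain ⟨y, hy, hn⟩ := sh_big s k v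
      exact ⟨y, hy, hn⟩
    exact Set.infinite_range_of_injective (f := fun k : ℕ => k + 1)
      (fun a b h => by simpa using h) (hf2.subset hsub)

end Run7.h300.NF
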